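import Mathlib
import Pool.Agent.H755R5.G4
import Pool.Agent.H755R5.Kum.Final
import Pool.Agent.H755R5.Kum.Final2

/-!
Generalised Fermat equations with `S`-unit coefficients for almost all pairs of bases.

Let `S` be a finite set of primes and `R` a natural number. The pairs `(u, v)` such that `±u`, `±v`
are two of the three bases of an `S`-solution of `a x ^ p + b y ^ q = c z ^ r` whose exponent at the
third base is between `3` and `R` (or a multiple of such a number) have uniform (Banach) density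
zero. The two other exponents, the third base and the coefficients are arbitrary.
-/

namespace Pool.Agent.Results.MP_be1fae_nt.AlmostAllPairs

open Pool.Agent.H755R5 Pool.Agent.H374R2.Beal

/-- `S`-solutions of `a x ^ p + b y ^ q = c z ^ r` (the condition `1/p + 1/q + 1/r < 1` is not
imposed) -/
def SSolution (S : Finset ℕ) (a b c x y z : ℤ) (p q r : ℕ) : Prop :=
  0 < p ∧ 0 < q ∧ 0 < r ∧ a ≠ 0 ∧ b ≠ 0 ∧ c ≠ 0 ∧ x ≠ 0 ∧ y ≠ 0 ∧ z ≠ 0 ∧
    (∀ ℓ : ℕ, ℓ.Prime → (ℓ : ℤ) ∣ a * b * c → ℓ ∈ S) ∧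
    Int.gcd ((Int.gcd (a * x) (b * y) : ℕ) : ℤ) (c * z) = 1 ∧
    a * x ^ p + b * y ^ q = c * z ^ r

/-- `m` is a multiple of some `n` with `3 ≤ n ≤ R` (for example `3 ≤ m ≤ R`) -/
def Mult (R m : ℕ) : Prop := ∃ n : ℕ, 3 ≤ n ∧ n ≤ R ∧ n ∣ m

/-- the pairs `(u, v)` such that `±u`, `±v` are two bases of an `S`-solution and the exponent of
the third base is a multiple of some `n` with `3 ≤ n ≤ R` -/
def Exceptional (S : Finset ℕ) (R : ℕ) : Set (ℕ × ℕ) :=
  {w | ∃ (a b c x y z : ℤ) (p q r : ℕ), SSolution S a b c x y z p q r ∧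
    ((x.natAbs = w.1 ∧ y.natAbs = w.2 ∧ Mult R r) ∨
     (x.natAbs = w.1 ∧ z.natAbs = w.2 ∧ Mult R q) ∨
     (y.natAbs = w.1 ∧ z.natAbs = w.2 ∧ Mult R p))}

/-- For every finite set `S` of primes, every `R` and every `ε > 0` there is `L` such that in every
box `(a, a + X] × (b, b + Y]` with `X, Y ≥ L` at most `ε X Y` pairs `(u, v)` are exceptional. -/
theorem result (S : Finset ℕ) (R : ℕ) (ε : ℝ) (hε : 0 < ε) : ∃ L : ℕ, ∀ X Y : ℕ, L ≤ X → L ≤ Y →
    ∀ a b : ℕ, ((Exceptional S R ∩ (Set.Ioc a (a + X) ×ˢ Set.Ioc b (b + Y))).ncard : ℝ) ≤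
      ε * (X * Y) := by
  have h : UniformNull (Exceptional S R) :=
    (excM_null Pool.Agent.H755R5.Kum.kummer_density Pool.Agent.H755R5.Kum.nonsquare_density
      Pool.Agent.H755R5.Kum.nonsquare_density_four S R).mono (fun w hw => hw)
  exact h ε hε

end Pool.Agent.Results.MP_be1fae_nt.AlmostAllPairs
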