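import Mathlib
import Pool.Agent.H755R4.SU3

/-!
Generalised Fermat equations with `S`-unit coefficients, one base of which is a typical integer.

Let `S` be a finite set of primes. For almost all integers `B` (in every interval `(b, b + Y]` with
`b ≤ Y ^ K`) the following holds: if `±B` is one of the three bases `x`, `y`, `z` of a solution of
`a x ^ p + b y ^ q = c z ^ r` with `gcd (a x, b y, c z) = 1` and `S`-units `a`, `b`, `c` (with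
arbitrary exponents `p, q, r ≥ 1`), then the radical of the product of the two other bases is larger
than `Y ^ (1 - ε)`.
-/

namespace Pool.Agent.Results.MP_be1fae_nt.AlmostEveryBase

open Pool.Agent.H755R4.SU
open Pool.Agent.H374R2.Z (rad)

/-- `S`-solutions of `a x ^ p + b y ^ q = c z ^ r` (the condition `1/p + 1/q + 1/r < 1` is not
imposed) -/
def SSolution (S : Finset ℕ) (a b c x y z : ℤ) (p q r : ℕ) : Prop :=
  0 < p ∧ 0 < q ∧ 0 < r ∧ a ≠ 0 ∧ b ≠ 0 ∧ c ≠ 0 ∧ x ≠ 0 ∧ y ≠ 0 ∧ z ≠ 0 ∧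
    (∀ ℓ : ℕ, ℓ.Prime → (ℓ : ℤ) ∣ a * b * c → ℓ ∈ S) ∧
    Int.gcd ((Int.gcd (a * x) (b * y) : ℕ) : ℤ) (c * z) = 1 ∧
    a * x ^ p + b * y ^ q = c * z ^ r

/-- the radical of a nonzero integer: the product of the distinct primes dividing it -/
def R (m : ℤ) : ℕ := ∏ p ∈ m.natAbs.primeFactors, p

/-- the integers `B` of the interval `(b, b + Y]` such that `±B` is a base of an `S`-solution in
which the product of the two other bases has radical at most `Y ^ (1 - ε)` -/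
def Bad (S : Finset ℕ) (ε : ℝ) (b Y : ℕ) : Set ℕ :=
  {B | b < B ∧ B ≤ b + Y ∧ ∃ (a₁ a₂ a₃ x y z : ℤ) (p q r : ℕ),
    SSolution S a₁ a₂ a₃ x y z p q r ∧
    ((x.natAbs = B ∧ (R (y * z) : ℝ) ≤ (Y : ℝ) ^ (1 - ε)) ∨
     (y.natAbs = B ∧ (R (x * z) : ℝ) ≤ (Y : ℝ) ^ (1 - ε)) ∨
     (z.natAbs = B ∧ (R (x * y) : ℝ) ≤ (Y : ℝ) ^ (1 - ε)))}

theorem pss_of {S : Finset ℕ} {b Y B y β : ℕ} {ε : ℝ} {w u v : ℤ} (hb : b < B) (hB : B ≤ b + Y)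
    (hy : 0 < y) (hβ : SUnit S β) (hw : w.natAbs = β * B ^ y) (hu : u ≠ 0) (hv : v ≠ 0)
    (huv : w + u = v) (hco : Int.gcd u v = 1)
    (hr : (rad (u.natAbs * v.natAbs) : ℝ) ≤ (Y : ℝ) ^ (1 - ε)) : B ∈ PSS S b Y ε := by
  have hu0 : 0 < u.natAbs := Int.natAbs_pos.mpr hu
  have hv0 : 0 < v.natAbs := Int.natAbs_pos.mpr hv
  have hco' : Nat.Coprime u.natAbs v.natAbs := hco
  have h3 : w.natAbs + u.natAbs = v.natAbs ∨ w.natAbs + v.natAbs = u.natAbs ∨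
      u.natAbs + v.natAbs = w.natAbs := by omega
  refine ⟨hb, hB, y, β, ?_⟩
  rw [← hw]
  rcases h3 with h | h | h
  · exact ⟨u.natAbs, v.natAbs, hy, hβ, hu0, hv0, hco', Or.inr (by omega), hr⟩
  · exact ⟨v.natAbs, u.natAbs, hy, hβ, hv0, hu0, hco'.symm, Or.inr (by omega),
      by rwa [mul_comm]⟩
  · exact ⟨u.natAbs, v.natAbs, hy, hβ, hu0, hv0, hco', Or.inl h, hr⟩

theorem int_prime_dvd {ℓ : ℕ} (hℓ : ℓ.Prime) {m n : ℤ} {k : ℕ} (h : (ℓ : ℤ) ∣ m * n ^ k) :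
    (ℓ : ℤ) ∣ m ∨ (ℓ : ℤ) ∣ n := by
  have hp := Nat.prime_iff_prime_int.mp hℓ
  rcases hp.dvd_or_dvd h with h | h
  · exact Or.inl h
  · exact Or.inr (hp.dvd_of_dvd_pow h)

theorem rad_le {S : Finset ℕ} (hS : ∀ p ∈ S, p.Prime) {b c y z : ℤ} {q r : ℕ} (hb : b ≠ 0)
    (hc : c ≠ 0) (hy : y ≠ 0) (hz : z ≠ 0)
    (hbS : ∀ ℓ : ℕ, ℓ.Prime → (ℓ : ℤ) ∣ b → ℓ ∈ S) (hcS : ∀ ℓ : ℕ, ℓ.Prime → (ℓ : ℤ) ∣ c → ℓ ∈ S) :
    rad ((b * y ^ q).natAbs * (c * z ^ r).natAbs) ≤ (∏ ℓ ∈ S, ℓ) * R (y * z) := by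
  classical
  have hyz : y * z ≠ 0 := mul_ne_zero hy hz
  have hsub : ((b * y ^ q).natAbs * (c * z ^ r).natAbs).primeFactors ⊆
      S ∪ (y * z).natAbs.primeFactors := by
    intro ℓ hℓ
    obtain ⟨hp, hd, _⟩ := Nat.mem_primeFactors.mp hℓ
    rw [Finset.mem_union, Nat.mem_primeFactors]
    rcases (hp.dvd_mul).mp hd with h | h
    · rcases int_prime_dvd hp (Int.natCast_dvd.mpr h) with h | h
      · exact Or.inl (hbS ℓ hp h)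
      · exact Or.inr ⟨hp, Int.natCast_dvd.mp (h.mul_right z), by simpa using hyz⟩
    · rcases int_prime_dvd hp (Int.natCast_dvd.mpr h) with h | h
      · exact Or.inl (hcS ℓ hp h)
      · exact Or.inr ⟨hp, Int.natCast_dvd.mp (h.mul_left y), by simpa using hyz⟩
  have h1 : rad ((b * y ^ q).natAbs * (c * z ^ r).natAbs) ∣ (∏ ℓ ∈ S, ℓ) * R (y * z) := by
    unfold rad R
    refine (Finset.prod_dvd_prod_of_subset _ _ _ hsub).trans ?_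
    exact Dvd.intro _ Finset.prod_union_inter
  have hpos : 0 < (∏ ℓ ∈ S, ℓ) * R (y * z) := by
    apply Nat.mul_pos
    · exact Finset.prod_pos fun p hp => (hS p hp).pos
    · exact Finset.prod_pos fun p hp => (Nat.prime_of_mem_primeFactors hp).pos
  exact Nat.le_of_dvd hpos h1

theorem gcd_one {a b c x y z : ℤ} {p q r : ℕ}
    (h : Int.gcd ((Int.gcd (a * x) (b * y) : ℕ) : ℤ) (c * z) = 1)
    (heq : a * x ^ p + b * y ^ q = c * z ^ r) (hp0 : 0 < p) (hq0 : 0 < q) (hr0 : 0 < r) :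
    Int.gcd (a * x ^ p) (b * y ^ q) = 1 ∧ Int.gcd (a * x ^ p) (c * z ^ r) = 1 ∧
      Int.gcd (b * y ^ q) (c * z ^ r) = 1 := by
  have key : ∀ ℓ : ℕ, ℓ.Prime → (ℓ : ℤ) ∣ a * x ^ p → (ℓ : ℤ) ∣ b * y ^ q →
      (ℓ : ℤ) ∣ c * z ^ r → False := by
    intro ℓ hℓ h1 h2 h3
    have e1 : (ℓ : ℤ) ∣ a * x := by
      rcases int_prime_dvd hℓ h1 with h | h
      · exact h.mul_right x
      · exact h.mul_left a
    have e2 : (ℓ : ℤ) ∣ b * y := by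
      rcases int_prime_dvd hℓ h2 with h | h
      · exact h.mul_right y
      · exact h.mul_left b
    have e3 : (ℓ : ℤ) ∣ c * z := by
      rcases int_prime_dvd hℓ h3 with h | h
      · exact h.mul_right z
      · exact h.mul_left c
    have e4 : (ℓ : ℤ) ∣ ((Int.gcd (a * x) (b * y) : ℕ) : ℤ) := Int.dvd_coe_gcd e1 e2
    have e5 := Int.dvd_coe_gcd e4 e3
    rw [h] at e5
    have e6 : ℓ ∣ 1 := by exact_mod_cast e5
    exact hℓ.one_lt.ne' (Nat.dvd_one.mp e6)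
  refine ⟨?_, ?_, ?_⟩
  · by_contra hn
    obtain ⟨ℓ, hℓ, hd⟩ := Nat.exists_prime_and_dvd hn
    have h1 : (ℓ : ℤ) ∣ a * x ^ p := (Int.natCast_dvd_natCast.mpr hd).trans (Int.gcd_dvd_left _ _)
    have h2 : (ℓ : ℤ) ∣ b * y ^ q := (Int.natCast_dvd_natCast.mpr hd).trans (Int.gcd_dvd_right _ _)
    exact key ℓ hℓ h1 h2 (heq ▸ dvd_add h1 h2)
  · by_contra hn
    obtain ⟨ℓ, hℓ, hd⟩ := Nat.exists_prime_and_dvd hn
    have h1 : (ℓ : ℤ) ∣ a * x ^ p := (Int.natCast_dvd_natCast.mpr hd).trans (Int.gcd_dvd_left _ _)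
    have h3 : (ℓ : ℤ) ∣ c * z ^ r := (Int.natCast_dvd_natCast.mpr hd).trans (Int.gcd_dvd_right _ _)
    have h2 : (ℓ : ℤ) ∣ b * y ^ q := by
      have : b * y ^ q = c * z ^ r - a * x ^ p := by rw [← heq]; ring
      rw [this]
      exact dvd_sub h3 h1
    exact key ℓ hℓ h1 h2 h3
  · by_contra hn
    obtain ⟨ℓ, hℓ, hd⟩ := Nat.exists_prime_and_dvd hn
    have h2 : (ℓ : ℤ) ∣ b * y ^ q := (Int.natCast_dvd_natCast.mpr hd).trans (Int.gcd_dvd_left _ _)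
    have h3 : (ℓ : ℤ) ∣ c * z ^ r := (Int.natCast_dvd_natCast.mpr hd).trans (Int.gcd_dvd_right _ _)
    have h1 : (ℓ : ℤ) ∣ a * x ^ p := by
      have : a * x ^ p = c * z ^ r - b * y ^ q := by rw [← heq]; ring
      rw [this]
      exact dvd_sub h3 h2
    exact key ℓ hℓ h1 h2 h3

theorem bad_sub {S : Finset ℕ} {ε ε' : ℝ} {b Y : ℕ} (hY : 1 ≤ Y) (hε : ε' ≤ ε / 2)
    (hbig : ((∏ ℓ ∈ S.filter Nat.Prime, ℓ : ℕ) : ℝ) ≤ (Y : ℝ) ^ (ε / 2)) :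
    Bad S ε b Y ⊆ PSS (S.filter Nat.Prime) b Y ε' := by
  rintro B ⟨hb, hB, a₁, a₂, a₃, x, y, z, p, q, r,
    ⟨hp, hq, hr, ha₁, ha₂, ha₃, hx, hy, hz, hS, hgcd, heq⟩, hcase⟩
  have hYR : (0 : ℝ) < Y := by exact_mod_cast (by omega : 0 < Y)
  have hY1 : (1 : ℝ) ≤ Y := by exact_mod_cast hY
  have hSp : ∀ p ∈ S.filter Nat.Prime, p.Prime := fun p hp => (Finset.mem_filter.mp hp).2
  obtain ⟨g1, g2, g3⟩ := gcd_one hgcd heq hp hq hr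
  have hS1 : ∀ ℓ : ℕ, ℓ.Prime → (ℓ : ℤ) ∣ a₁ → ℓ ∈ S.filter Nat.Prime := fun ℓ hℓ h =>
    Finset.mem_filter.mpr ⟨hS ℓ hℓ ((h.mul_right a₂).mul_right a₃), hℓ⟩
  have hS2 : ∀ ℓ : ℕ, ℓ.Prime → (ℓ : ℤ) ∣ a₂ → ℓ ∈ S.filter Nat.Prime := fun ℓ hℓ h =>
    Finset.mem_filter.mpr ⟨hS ℓ hℓ ((h.mul_left a₁).mul_right a₃), hℓ⟩
  have hS3 : ∀ ℓ : ℕ, ℓ.Prime → (ℓ : ℤ) ∣ a₃ → ℓ ∈ S.filter Nat.Prime := fun ℓ hℓ h =>
    Finset.mem_filter.mpr ⟨hS ℓ hℓ (h.mul_left (a₁ * a₂)), hℓ⟩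
  have hunit : ∀ a : ℤ, a ≠ 0 → (∀ ℓ : ℕ, ℓ.Prime → (ℓ : ℤ) ∣ a → ℓ ∈ S.filter Nat.Prime) →
      SUnit (S.filter Nat.Prime) a.natAbs := fun a ha h =>
    ⟨Int.natAbs_pos.mpr ha, fun ℓ hℓ hd => h ℓ hℓ (Int.natCast_dvd.mpr hd)⟩
  -- the size of the radical
  have hsize : ∀ (n : ℕ) (m : ℤ), n ≤ (∏ ℓ ∈ S.filter Nat.Prime, ℓ) * R m →
      (R m : ℝ) ≤ (Y : ℝ) ^ (1 - ε) → (n : ℝ) ≤ (Y : ℝ) ^ (1 - ε') := by
    intro n m h1 h2
    calc (n : ℝ) ≤ ((∏ ℓ ∈ S.filter Nat.Prime, ℓ : ℕ) : ℝ) * R m := by exact_mod_cast h1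
      _ ≤ (Y : ℝ) ^ (ε / 2) * (Y : ℝ) ^ (1 - ε) :=
          mul_le_mul hbig h2 (Nat.cast_nonneg _) (by positivity)
      _ = (Y : ℝ) ^ (1 - ε / 2) := by
          rw [← Real.rpow_add hYR]
          congr 1
          ring
      _ ≤ (Y : ℝ) ^ (1 - ε') := Real.rpow_le_rpow_of_exponent_le hY1 (by linarith)
  have n1 : a₁ * x ^ p ≠ 0 := mul_ne_zero ha₁ (pow_ne_zero _ hx)
  have n2 : a₂ * y ^ q ≠ 0 := mul_ne_zero ha₂ (pow_ne_zero _ hy)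
  have n3 : a₃ * z ^ r ≠ 0 := mul_ne_zero ha₃ (pow_ne_zero _ hz)
  rcases hcase with ⟨hBx, hR⟩ | ⟨hBy, hR⟩ | ⟨hBz, hR⟩
  · refine pss_of (w := a₁ * x ^ p) (u := a₂ * y ^ q) (v := a₃ * z ^ r) hb hB hp
      (hunit a₁ ha₁ hS1) (by rw [Int.natAbs_mul, Int.natAbs_pow, hBx]) n2 n3 heq g3 ?_
    exact hsize _ _ (rad_le hSp ha₂ ha₃ hy hz hS2 hS3) hR
  · refine pss_of (w := a₂ * y ^ q) (u := a₁ * x ^ p) (v := a₃ * z ^ r) hb hB hq
      (hunit a₂ ha₂ hS2) (by rw [Int.natAbs_mul, Int.natAbs_pow, hBy]) n1 n3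
      (by rw [← heq]; ring) g2 ?_
    exact hsize _ _ (rad_le hSp ha₁ ha₃ hx hz hS1 hS3) hR
  · refine pss_of (w := a₃ * z ^ r) (u := -(a₁ * x ^ p)) (v := a₂ * y ^ q) hb hB hr
      (hunit a₃ ha₃ hS3) (by rw [Int.natAbs_mul, Int.natAbs_pow, hBz]) (neg_ne_zero.mpr n1) n2
      (by rw [← heq]; ring) (by rw [Int.neg_gcd]; exact g1) ?_
    rw [Int.natAbs_neg]
    exact hsize _ _ (rad_le hSp ha₁ ha₂ hx hy hS1 hS2) hR

/-- Let `S` be a finite set of primes, `K` a natural number and `ε > 0`. For `Y` large, every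
interval `(b, b + Y]` with `b ≤ Y ^ K` contains at most `ε Y` integers `B` such that `±B` is a base
of an `S`-solution in which the product of the two other bases has radical at most
`Y ^ (1 - ε)`. -/
theorem result (S : Finset ℕ) (K : ℕ) (ε : ℝ) (hε : 0 < ε) : ∃ L : ℕ, ∀ Y b : ℕ, L ≤ Y →
    b ≤ Y ^ K → (Bad S ε b Y).Finite ∧ ((Bad S ε b Y).ncard : ℝ) ≤ ε * Y := by
  obtain ⟨ε', hε'0, hε'1, hε'2⟩ : ∃ ε' : ℝ, 0 < ε' ∧ ε' < 1 ∧ ε' ≤ ε / 2 := by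
    refine ⟨min (ε / 2) (1 / 2), by positivity, ?_, min_le_left _ _⟩
    exact (min_le_right _ _).trans_lt (by norm_num)
  obtain ⟨L, hL⟩ := powersS (S.filter Nat.Prime) (fun p hp => (Finset.mem_filter.mp hp).2)
    (K + 2) (by omega) hε'0 hε'1
  have ht : Filter.Tendsto (fun N : ℕ => (N : ℝ) ^ (ε / 2)) Filter.atTop Filter.atTop :=
    (tendsto_rpow_atTop (by positivity)).comp tendsto_natCast_atTop_atTop
  obtain ⟨L', hL'⟩ := Filter.eventually_atTop.mp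
    (ht.eventually_ge_atTop ((∏ ℓ ∈ S.filter Nat.Prime, ℓ : ℕ) : ℝ))
  refine ⟨max L (max L' 2), fun Y b hY hb => ?_⟩
  simp only [max_le_iff] at hY
  obtain ⟨hLY, hLY', hY2⟩ := hY
  have hNK : Y ^ K + Y ≤ Y ^ (K + 2) := by
    have h1 : Y ^ K ≤ Y ^ (K + 1) := Nat.pow_le_pow_right (by omega) (by omega)
    have h2 : Y ≤ Y ^ (K + 1) := Nat.le_self_pow (by omega) Y
    have h3 : Y ^ (K + 2) = Y ^ (K + 1) * Y := pow_succ _ _
    calc Y ^ K + Y ≤ Y ^ (K + 1) * 2 := by omega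
      _ ≤ Y ^ (K + 1) * Y := Nat.mul_le_mul_left _ hY2
      _ = _ := h3.symm
  have hsub := bad_sub (b := b) (by omega) hε'2 (hL' Y hLY')
  have hfin : (PSS (S.filter Nat.Prime) b Y ε').Finite :=
    (Set.finite_Ioc b (b + Y)).subset (fun B hB => ⟨hB.1, hB.2.1⟩)
  refine ⟨hfin.subset hsub, ?_⟩
  have h1 : ((Bad S ε b Y).ncard : ℝ) ≤ (PSS (S.filter Nat.Prime) b Y ε').ncard := by
    exact_mod_cast Set.ncard_le_ncard hsub hfin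
  have h2 := hL Y b hLY (by omega)
  have h3 : (0 : ℝ) ≤ Y := Nat.cast_nonneg Y
  have h4 : ε' * Y ≤ ε * Y := mul_le_mul_of_nonneg_right (by linarith) h3
  linarith

end Pool.Agent.Results.MP_be1fae_nt.AlmostEveryBase
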