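import Mathlib
import Pool.Agent.H755R5.G2
import Pool.Agent.H755R5.Kum.Final
import Pool.Agent.H755R5.Kum.Final2

/-!
Generalised Fermat equations with `S`-unit coefficients for almost all pairs of bases, even third
exponents included.

Let `S` be a finite set of primes and `R`, `K` natural numbers. In every box
`(a, a + X] × (b, b + Y]` with `X`, `Y` large and `a, b ≤ max(X, Y) ^ K`, all but `ε X Y` pairs
`(u, v)` have the property that there is no `S`-solution of `a x ^ p + b y ^ q = c z ^ r` with two of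
its bases equal to `±u`, `±v` and with third exponent divisible by some `n` with `2 ≤ n ≤ R`. The two
other exponents, the third base and the coefficients are arbitrary.
-/

namespace Pool.Agent.Results.MP_be1fae_nt.SquaresIncluded

open Pool.Agent.H755R5

/-- `S`-solutions of `a x ^ p + b y ^ q = c z ^ r` (the condition `1/p + 1/q + 1/r < 1` is not
imposed) -/
def SSolution (S : Finset ℕ) (a b c x y z : ℤ) (p q r : ℕ) : Prop :=
  0 < p ∧ 0 < q ∧ 0 < r ∧ a ≠ 0 ∧ b ≠ 0 ∧ c ≠ 0 ∧ x ≠ 0 ∧ y ≠ 0 ∧ z ≠ 0 ∧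
    (∀ ℓ : ℕ, ℓ.Prime → (ℓ : ℤ) ∣ a * b * c → ℓ ∈ S) ∧
    Int.gcd ((Int.gcd (a * x) (b * y) : ℕ) : ℤ) (c * z) = 1 ∧
    a * x ^ p + b * y ^ q = c * z ^ r

/-- `m` is a multiple of some `n` with `2 ≤ n ≤ R` (for example `2 ≤ m ≤ R`, or `m` even if
`R ≥ 2`) -/
def Mult (R m : ℕ) : Prop := ∃ n : ℕ, 2 ≤ n ∧ n ≤ R ∧ n ∣ m

/-- the pairs `(u, v)` such that `±u`, `±v` are two bases of an `S`-solution and the exponent of
the third base is a multiple of some `n` with `2 ≤ n ≤ R` -/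
def Exceptional (S : Finset ℕ) (R : ℕ) : Set (ℕ × ℕ) :=
  {w | ∃ (a b c x y z : ℤ) (p q r : ℕ), SSolution S a b c x y z p q r ∧
    ((x.natAbs = w.1 ∧ y.natAbs = w.2 ∧ Mult R r) ∨
     (x.natAbs = w.1 ∧ z.natAbs = w.2 ∧ Mult R q) ∨
     (y.natAbs = w.1 ∧ z.natAbs = w.2 ∧ Mult R p))}

/-- For every finite set `S` of primes, all `R`, `K` and every `ε > 0` there is `L` such that in
every box `(a, a + X] × (b, b + Y]` with `X, Y ≥ L` and `a, b ≤ max(X, Y) ^ K` at most `ε X Y` pairs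
`(u, v)` are exceptional. -/
theorem result (S : Finset ℕ) (R K : ℕ) (ε : ℝ) (hε : 0 < ε) : ∃ L : ℕ, ∀ X Y : ℕ, L ≤ X →
    L ≤ Y → ∀ a b : ℕ, a ≤ (max X Y) ^ K → b ≤ (max X Y) ^ K →
      ((Exceptional S R ∩ (Set.Ioc a (a + X) ×ˢ Set.Ioc b (b + Y))).ncard : ℝ) ≤
        ε * (X * Y) :=
  excA_boxes Pool.Agent.H755R5.Kum.kummer_density Pool.Agent.H755R5.Kum.nonsquare_density
    Pool.Agent.H755R5.Kum.nonsquare_density_four S R K hε

end Pool.Agent.Results.MP_be1fae_nt.SquaresIncluded
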